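import Pool.Agent.Work.MP_f22417_co.ASM

/-!
# Eventual exact value of the generalized Heller constant

For all `m ≥ 1` and all `D ≥ (4 (m² - m + 1))^m`, the largest number of pairwise distinct columns
of an integer matrix with `m` rows whose largest `m × m` minor equals `D` in absolute value is
`m² + m + 1 + 2 m (D - 1)`.
-/

namespace Pool.Agent.Results.MP_f22417_co.EventualHeller

open Pool.Agent.Work.MP_f22417_co

/-- `Realizable D m n`: there is an integer matrix with `m` rows and `n` pairwise distinct columns
such that `D` is the largest absolute value of the determinant of an `m × m` submatrix (the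
submatrices are given by the increasing choices `s` of `m` columns). -/
def Realizable (D m n : ℕ) : Prop :=
  ∃ A : Matrix (Fin m) (Fin n) ℤ, (∀ i j : Fin n, (∀ k, A k i = A k j) → i = j) ∧
    IsGreatest {d : ℤ | ∃ s : Fin m ↪o Fin n, d = |(A.submatrix id s).det|} (D : ℤ)

theorem abs_det_sort {m n : ℕ} (A : Matrix (Fin m) (Fin n) ℤ) (s : Fin m → Fin n)
    (hs : Function.Injective s) :
    ∃ s' : Fin m ↪o Fin n, |(A.submatrix id s').det| = |(A.submatrix id s).det| := by
  have hmono : StrictMono (s ∘ Tuple.sort s) :=
    (Tuple.monotone_sort s).strictMono_of_injective (hs.comp (Tuple.sort s).injective)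
  refine ⟨OrderEmbedding.ofStrictMono (s ∘ Tuple.sort s) hmono, ?_⟩
  have h1 : A.submatrix id (OrderEmbedding.ofStrictMono (s ∘ Tuple.sort s) hmono)
      = (A.submatrix id s).submatrix id (Tuple.sort s) := by
    ext i j; rfl
  rw [h1, Matrix.det_permute']
  rcases Int.units_eq_one_or (Equiv.Perm.sign (Tuple.sort s)) with h | h <;> rw [h] <;> simp

/-- The set of columns of a realizing matrix. -/
theorem columns {D m n : ℕ} (hD : 0 < D) (h : Realizable D m n) :
    ∃ S : Finset (Fin m → ℤ), S.card = n ∧ Bd S D ∧ Spans S := by
  obtain ⟨A, hinj, hmem, hub⟩ := h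
  have hinj' : Function.Injective (fun (j : Fin n) (i : Fin m) => A i j) := by
    intro i j hij
    exact hinj i j (fun k => congrFun hij k)
  refine ⟨Finset.univ.image (fun (j : Fin n) (i : Fin m) => A i j), ?_, ?_, ?_⟩
  · rw [Finset.card_image_of_injective _ hinj', Finset.card_univ, Fintype.card_fin]
  · intro v hv
    have hv' : ∀ i, ∃ j : Fin n, (fun (i : Fin m) => A i j) = v i := by
      intro i
      obtain ⟨j, -, hj⟩ := Finset.mem_image.1 (hv i)
      exact ⟨j, hj⟩
    choose s hs using hv'
    have h1 : Matrix.of v = (A.submatrix id s).transpose := by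
      ext i k
      simp only [Matrix.of_apply, Matrix.transpose_apply, Matrix.submatrix_apply, id]
      exact (congrFun (hs i) k).symm
    rw [h1, Matrix.det_transpose]
    by_cases hsi : Function.Injective s
    · obtain ⟨s', hs'⟩ := abs_det_sort A s hsi
      rw [← hs']
      exact hub ⟨s', rfl⟩
    · unfold Function.Injective at hsi
      push Not at hsi
      obtain ⟨i, j, hij, hne⟩ := hsi
      have h2 : (A.submatrix id s).det = 0 := by
        apply Matrix.det_zero_of_column_eq hne
        intro k
        simp only [Matrix.submatrix_apply, id, hij]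
      rw [h2, abs_zero]
      positivity
  · obtain ⟨s, hs⟩ := hmem
    refine ⟨fun i k => A k (s i), ?_, ?_⟩
    · intro i
      exact Finset.mem_image.2 ⟨s i, Finset.mem_univ _, rfl⟩
    · have h1 : Matrix.of (fun i k => A k (s i)) = (A.submatrix id s).transpose := by
        ext i k; rfl
      rw [h1, Matrix.det_transpose]
      intro h0
      rw [h0, abs_zero] at hs
      have : D = 0 := by exact_mod_cast hs
      omega

/-- **Theorem.** `h(D, m) = m² + m + 1 + 2 m (D - 1)` for all `m ≥ 1` and
`D ≥ (4 (m² - m + 1))^m`. -/
theorem result : ∀ m : ℕ, 0 < m → ∀ D : ℕ, (4 * (m ^ 2 - m + 1)) ^ m ≤ D →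
    IsGreatest {n : ℕ | 0 < n ∧ Realizable D m n} (m ^ 2 + m + 1 + 2 * m * (D - 1)) := by
  intro m hm D hD
  have hD0 : 0 < D := lt_of_lt_of_le (by positivity) hD
  constructor
  · refine ⟨by positivity, ?_⟩
    obtain ⟨A, hinj, hle, s, hs⟩ := lower m D hm hD0
    refine ⟨A, hinj, ?_, ?_⟩
    · have hsi : Function.Injective s := by
        intro i j hij
        by_contra hne
        have h2 : (A.submatrix id s).det = 0 := by
          apply Matrix.det_zero_of_column_eq hne
          intro k
          simp only [Matrix.submatrix_apply, id, hij]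
        rw [h2, abs_zero] at hs
        have : D = 0 := by exact_mod_cast hs.symm
        omega
      obtain ⟨s', hs'⟩ := abs_det_sort A s hsi
      exact ⟨s', by rw [hs', hs]⟩
    · rintro d ⟨s', rfl⟩
      exact hle s'
  · rintro n ⟨-, hn⟩
    obtain ⟨S, hcard, hS, hSs⟩ := columns hD0 hn
    rw [← hcard]
    exact bound_large m hm S D hS hSs hD

end Pool.Agent.Results.MP_f22417_co.EventualHeller
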